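import Pool.Agent.HSC.Main

/-!
# Scaling of the Higgs field preserves the existence of harmonic metrics
-/

set_option autoImplicit false

open scoped ContDiff Manifold

noncomputable section

namespace Pool.Agent.Results.MP_a09535_gt.ScalingTheorem

open Pool.Agent.HSC

universe u v

/-- **Scaling theorem.** Let `X` be a connected non-compact Riemann surface and `(E, θ)` a Higgs
bundle on `X` which admits a harmonic metric. Then `(E, t θ)` admits a harmonic metric for every
non-zero complex number `t`. -/
theorem result (X : Type u) [TopologicalSpace X] [T2Space X] [ConnectedSpace X]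
    [NoncompactSpace X] [ChartedSpace ℂ X] [IsManifold 𝓘(ℂ) ω X] (r : ℕ)
    (E : HiggsBundle.{u, v} X r) (h : ∃ k, IsHarmonic E k) (t : ℂ) (ht : t ≠ 0) :
    ∃ k, IsHarmonic (E.scale t) k := by
  obtain ⟨k, hk⟩ := h
  exact Pool.Agent.HSC.main X r E k hk t ht

end Pool.Agent.Results.MP_a09535_gt.ScalingTheorem
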